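import Mathlib

namespace Pool.Agent.U853.Zom

open scoped NNReal ENNReal

/-- the step of a zombie at relative position `v` towards the origin, horizontal if possible -/
def FH (v : ℤ × ℤ) : ℤ × ℤ :=
  if v.1 = 0 then (0, v.2 - Int.sign v.2) else (v.1 - Int.sign v.1, v.2)

/-- the step of a zombie at relative position `v` towards the origin, vertical if possible -/
def FV (v : ℤ × ℤ) : ℤ × ℤ :=
  if v.2 = 0 then (v.1 - Int.sign v.1, 0) else (v.1, v.2 - Int.sign v.2)

/-- the probability that a zombie at relative position `v` captures the survivor who makes the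
moves of the list, in the plane -/
noncomputable def g : List (ℤ × ℤ) → ℤ × ℤ → ℝ≥0
  | [], v => if v = 0 then 1 else 0
  | e :: w, v => if v = 0 then 1 else
      ((if FH v = 0 then 1 else g w (FH v - e)) + (if FV v = 0 then 1 else g w (FV v - e))) / 2

noncomputable def phi (w : List (ℤ × ℤ)) (e u : ℤ × ℤ) : ℝ≥0 := if u = 0 then 1 else g w (u - e)

lemma g_nil (v : ℤ × ℤ) : g [] v = if v = 0 then 1 else 0 := rfl

lemma g_cons (e : ℤ × ℤ) (w : List (ℤ × ℤ)) (v : ℤ × ℤ) :
    g (e :: w) v = if v = 0 then 1 else (phi w e (FH v) + phi w e (FV v)) / 2 := rfl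

lemma g_zero (w : List (ℤ × ℤ)) : g w 0 = 1 := by
  cases w <;> simp [g]

lemma phi_zero (w : List (ℤ × ℤ)) (e : ℤ × ℤ) : phi w e 0 = 1 := by simp [phi]

lemma g_le_one (w : List (ℤ × ℤ)) : ∀ v, g w v ≤ 1 := by
  induction w with
  | nil => intro v; rw [g_nil]; split_ifs <;> simp
  | cons e w ih =>
    intro v
    rw [g_cons]
    have hp : ∀ u, phi w e u ≤ 1 := by
      intro u; unfold phi; split_ifs
      · exact le_rfl
      · exact ih _
    split_ifs
    · exact le_rfl
    · have h1 := hp (FH v)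
      have h2 := hp (FV v)
      rw [div_le_iff₀ (by norm_num)]
      calc phi w e (FH v) + phi w e (FV v) ≤ 1 + 1 := add_le_add h1 h2
        _ = 1 * 2 := by norm_num

lemma g_le_phi (w : List (ℤ × ℤ)) (e u : ℤ × ℤ) : g w (u - e) ≤ phi w e u := by
  unfold phi
  split_ifs
  · exact g_le_one _ _
  · exact le_rfl

/-- L1 norm -/
def nm (v : ℤ × ℤ) : ℤ := |v.1| + |v.2|

lemma sign_step (a : ℤ) (ha : a ≠ 0) : |a - Int.sign a| = |a| - 1 := by
  rcases lt_or_gt_of_ne ha with h | h
  · rw [Int.sign_eq_neg_one_of_neg h, abs_of_neg h, abs_of_nonpos (by omega)]; ring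
  · rw [Int.sign_eq_one_of_pos h, abs_of_pos h, abs_of_nonneg (by omega)]

lemma nm_FH (v : ℤ × ℤ) (hv : v ≠ 0) : nm (FH v) = nm v - 1 := by
  obtain ⟨a, b⟩ := v
  unfold FH nm
  by_cases ha : a = 0
  · have hb : b ≠ 0 := by
      intro hb; apply hv; simp [ha, hb]
    simp only [ha, if_true]
    rw [sign_step b hb]; ring
  · simp only [ha, if_false]
    rw [sign_step a ha]; ring

lemma nm_FV (v : ℤ × ℤ) (hv : v ≠ 0) : nm (FV v) = nm v - 1 := by
  obtain ⟨a, b⟩ := v
  unfold FV nm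
  by_cases hb : b = 0
  · have ha : a ≠ 0 := by
      intro ha; apply hv; simp [ha, hb]
    simp only [hb, if_true]
    rw [sign_step a ha]; ring
  · simp only [hb, if_false]
    rw [sign_step b hb]; ring

lemma nm_nonneg (v : ℤ × ℤ) : 0 ≤ nm v := add_nonneg (abs_nonneg _) (abs_nonneg _)

lemma nm_sub (u e : ℤ × ℤ) : nm u ≤ nm (u - e) + nm e := by
  obtain ⟨a, b⟩ := u
  obtain ⟨c, d⟩ := e
  simp only [nm, Prod.mk_sub_mk]
  have h1 := abs_add_le (a - c) c
  have h2 := abs_add_le (b - d) d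
  simp only [sub_add_cancel] at h1 h2
  linarith

lemma nm_zero_iff (v : ℤ × ℤ) : nm v = 0 ↔ v = 0 := by
  obtain ⟨a, b⟩ := v
  simp only [nm, Prod.mk_eq_zero]
  constructor
  · intro h
    have h1 := abs_nonneg a
    have h2 := abs_nonneg b
    constructor
    · exact abs_eq_zero.mp (by linarith)
    · exact abs_eq_zero.mp (by linarith)
  · rintro ⟨rfl, rfl⟩; simp

/-- the support of `g` -/
lemma g_support (w : List (ℤ × ℤ)) (hw : ∀ e ∈ w, nm e ≤ 1) :
    ∀ v, 2 * (w.length : ℤ) < nm v → g w v = 0 := by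
  induction w with
  | nil =>
    intro v hv
    rw [g_nil, if_neg]
    rintro rfl
    simp [nm] at hv
  | cons e w ih =>
    intro v hv
    have hw' : ∀ e' ∈ w, nm e' ≤ 1 := fun e' he' => hw e' (List.mem_cons_of_mem _ he')
    have he : nm e ≤ 1 := hw e (List.mem_cons_self)
    have hv0 : v ≠ 0 := by
      rintro rfl
      have : (0:ℤ) ≤ 2 * ((e :: w).length : ℤ) := by positivity
      simp [nm] at hv
      linarith
    rw [g_cons, if_neg hv0]
    push_cast [List.length_cons] at hv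
    have key : ∀ u, nm u = nm v - 1 → phi w e u = 0 := by
      intro u hu
      unfold phi
      rw [if_neg, ih hw' (u - e)]
      · have := nm_sub u e
        linarith
      · intro h0
        rw [h0] at hu
        have : nm (0 : ℤ × ℤ) = 0 := by simp [nm]
        have h2 : (0:ℤ) ≤ (w.length : ℤ) := by positivity
        linarith
    rw [key _ (nm_FH v hv0), key _ (nm_FV v hv0)]
    simp

/-! ### Symmetry -/

lemma FH_swap (v : ℤ × ℤ) : FH v.swap = (FV v).swap := by
  obtain ⟨a, b⟩ := v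
  simp only [FH, FV, Prod.swap]
  split_ifs <;> rfl

lemma FV_swap (v : ℤ × ℤ) : FV v.swap = (FH v).swap := by
  obtain ⟨a, b⟩ := v
  simp only [FH, FV, Prod.swap]
  split_ifs <;> rfl

lemma swap_eq_zero (u : ℤ × ℤ) : u.swap = 0 ↔ u = 0 := by
  obtain ⟨a, b⟩ := u
  simp [Prod.ext_iff, and_comm]

lemma swap_sub (u e : ℤ × ℤ) : u.swap - e.swap = (u - e).swap := by
  obtain ⟨a, b⟩ := u
  obtain ⟨c, d⟩ := e
  rfl

lemma g_swap (w : List (ℤ × ℤ)) : ∀ v, g (w.map Prod.swap) v.swap = g w v := by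
  induction w with
  | nil =>
    intro v
    simp only [List.map_nil, g_nil, swap_eq_zero]
  | cons e w ih =>
    intro v
    simp only [List.map_cons, g_cons, swap_eq_zero, FH_swap, FV_swap]
    have hp : ∀ u, phi (w.map Prod.swap) e.swap u.swap = phi w e u := by
      intro u
      unfold phi
      simp only [swap_sub, ih, swap_eq_zero]
    rw [hp, hp, add_comm]

/-! ### Sums over the integers -/

lemma tsum_int (f : ℤ → ℝ≥0∞) :
    ∑' a : ℤ, f a = ∑' n : ℕ, f n + ∑' n : ℕ, f (-(n + 1)) :=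
  tsum_of_nat_of_neg_add_one ENNReal.summable ENNReal.summable

lemma tsum_nat_succ (f : ℕ → ℝ≥0∞) : ∑' n : ℕ, f n = f 0 + ∑' n : ℕ, f (n + 1) :=
  tsum_eq_zero_add' ENNReal.summable

lemma sum_sign (f : ℤ → ℝ≥0∞) :
    ∑' a : ℤ, (if a = 0 then 0 else f (a - Int.sign a)) = ∑' a : ℤ, f a + f 0 := by
  rw [tsum_int, tsum_int f]
  have h1 : ∑' n : ℕ, (if ((n:ℕ):ℤ) = 0 then 0 else f ((n:ℤ) - Int.sign (n:ℤ)))
      = ∑' n : ℕ, f n := by
    rw [tsum_nat_succ]
    simp only [Nat.cast_zero, if_true, zero_add]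
    apply tsum_congr
    intro n
    have h : ((n + 1 : ℕ) : ℤ) ≠ 0 := by positivity
    have h' : (0:ℤ) < ((n + 1 : ℕ) : ℤ) := by positivity
    rw [if_neg h, Int.sign_eq_one_of_pos h']
    congr 1
    push_cast
    ring
  have h2 : ∑' n : ℕ, (if (-((n:ℤ) + 1)) = 0 then 0
      else f (-((n:ℤ) + 1) - Int.sign (-((n:ℤ) + 1)))) = ∑' n : ℕ, f (-(n:ℤ)) := by
    apply tsum_congr
    intro n
    have h : (-((n:ℤ) + 1)) < 0 := by
      have : (0:ℤ) ≤ n := by positivity
      linarith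
    rw [if_neg h.ne, Int.sign_eq_neg_one_of_neg h]
    congr 1
    ring
  have h3 : ∑' n : ℕ, f (-(n:ℤ)) = f 0 + ∑' n : ℕ, f (-((n:ℤ) + 1)) := by
    rw [tsum_nat_succ]
    simp only [Nat.cast_zero, neg_zero, Nat.cast_add, Nat.cast_one]
  rw [h1, h2, h3]
  ring

/-- mass of all positions after a horizontal-first step -/
lemma sum_step (f : ℤ → ℤ → ℝ≥0∞) :
    ∑' y : ℤ, ∑' a : ℤ, (if a = 0 then (if y = 0 then 0 else f 0 (y - Int.sign y))
      else f (a - Int.sign a) y)
    = ∑' y : ℤ, ∑' a : ℤ, f a y + 2 * ∑' y : ℤ, f 0 y + f 0 0 := by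
  have h1 : ∀ y : ℤ, ∑' a : ℤ, (if a = 0 then (if y = 0 then 0 else f 0 (y - Int.sign y))
      else f (a - Int.sign a) y)
      = (∑' a : ℤ, f a y + f 0 y) + (if y = 0 then 0 else f 0 (y - Int.sign y)) := by
    intro y
    rw [← sum_sign (fun a => f a y)]
    rw [← tsum_ite_eq (0:ℤ) (fun _ => (if y = 0 then (0:ℝ≥0∞) else f 0 (y - Int.sign y))),
      ← ENNReal.tsum_add]
    apply tsum_congr
    intro a
    split_ifs <;> simp
  simp only [h1]
  rw [ENNReal.tsum_add, ENNReal.tsum_add, sum_sign (fun y => f 0 y)]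
  ring

/-! ### Row sums -/

noncomputable def r (w : List (ℤ × ℤ)) (y : ℤ) : ℝ≥0∞ := ∑' a : ℤ, (g w (a, y) : ℝ≥0∞)
noncomputable def c (w : List (ℤ × ℤ)) (x : ℤ) : ℝ≥0∞ := ∑' b : ℤ, (g w (x, b) : ℝ≥0∞)
noncomputable def rho (w : List (ℤ × ℤ)) (e : ℤ × ℤ) (y : ℤ) : ℝ≥0∞ :=
  ∑' a : ℤ, (phi w e (a, y) : ℝ≥0∞)
noncomputable def G (w : List (ℤ × ℤ)) : ℝ≥0∞ := ∑' y : ℤ, ∑' a : ℤ, (g w (a, y) : ℝ≥0∞)

lemma r_le_rho (w : List (ℤ × ℤ)) (e : ℤ × ℤ) (y : ℤ) : r w (y - e.2) ≤ rho w e y := by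
  unfold r rho
  rw [← (Equiv.subRight e.1).tsum_eq]
  apply ENNReal.tsum_le_tsum
  intro a
  have := g_le_phi w e (a, y)
  exact_mod_cast this

lemma c_swap (w : List (ℤ × ℤ)) (x : ℤ) : c w x = r (w.map Prod.swap) x := by
  unfold c r
  apply tsum_congr
  intro b
  rw [← g_swap w (x, b)]
  rfl

lemma row_ne (w : List (ℤ × ℤ)) (e : ℤ × ℤ) (y : ℤ) (hy : y ≠ 0) :
    (rho w e y + rho w e (y - Int.sign y)) / 2 ≤ r (e :: w) y := by
  have h1 : ∀ a : ℤ, ((if a = 0 then 0 else (phi w e (a - Int.sign a, y) : ℝ≥0∞))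
      + (phi w e (a, y - Int.sign y) : ℝ≥0∞)) / 2 ≤ (g (e :: w) (a, y) : ℝ≥0∞) := by
    intro a
    have hv : ((a, y) : ℤ × ℤ) ≠ 0 := by
      intro h; exact hy (congrArg Prod.snd h)
    rw [g_cons, if_neg hv]
    have hFV : FV (a, y) = (a, y - Int.sign y) := by simp [FV, hy]
    rw [hFV]
    push_cast
    apply ENNReal.div_le_div_right
    gcongr
    split_ifs with ha
    · exact zero_le
    · have : FH (a, y) = (a - Int.sign a, y) := by simp [FH, ha]
      rw [this]
  calc (rho w e y + rho w e (y - Int.sign y)) / 2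
      ≤ ((rho w e y + (phi w e (0, y) : ℝ≥0∞)) + rho w e (y - Int.sign y)) / 2 := by
        apply ENNReal.div_le_div_right
        gcongr
        exact le_self_add
    _ = ∑' a : ℤ, ((if a = 0 then 0 else (phi w e (a - Int.sign a, y) : ℝ≥0∞))
      + (phi w e (a, y - Int.sign y) : ℝ≥0∞)) / 2 := by
        unfold rho
        rw [← sum_sign (fun a => (phi w e (a, y) : ℝ≥0∞)), ← ENNReal.tsum_add]
        simp only [div_eq_mul_inv]
        rw [ENNReal.tsum_mul_right]
    _ ≤ r (e :: w) y := ENNReal.tsum_le_tsum h1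

lemma row_zero (w : List (ℤ × ℤ)) (e : ℤ × ℤ) :
    r (e :: w) 0 = rho w e 0 + 2 := by
  have h1 : ∀ a : ℤ, (g (e :: w) (a, 0) : ℝ≥0∞)
      = (if a = 0 then 0 else (phi w e (a - Int.sign a, 0) : ℝ≥0∞)) + (if a = 0 then 1 else 0) := by
    intro a
    rw [g_cons]
    by_cases ha : a = 0
    · subst ha; simp
    · have hv : ((a, 0) : ℤ × ℤ) ≠ 0 := by
        intro h; exact ha (congrArg Prod.fst h)
      have hFV : FV (a, 0) = (a - Int.sign a, 0) := by simp [FV]
      have hFH : FH (a, 0) = (a - Int.sign a, 0) := by simp [FH, ha]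
      rw [if_neg hv, hFV, hFH, if_neg ha, if_neg ha, add_zero]
      congr 1
      rw [← two_mul, mul_div_cancel_left₀ _ (by norm_num)]
  unfold r
  simp only [h1]
  rw [ENNReal.tsum_add, sum_sign (fun a => (phi w e (a, 0) : ℝ≥0∞)), tsum_ite_eq]
  have : phi w e (0, 0) = 1 := phi_zero w e
  simp only [this]
  unfold rho
  rw [add_assoc]
  congr 1
  norm_num

lemma G_step (w : List (ℤ × ℤ)) (e : ℤ × ℤ) :
    G w + c w (-e.1) + r w (-e.2) + 2 ≤ G (e :: w) := by
  set f : ℤ → ℤ → ℝ≥0∞ := fun a y => (phi w e (a, y) : ℝ≥0∞) with hf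
  set Φ : ℝ≥0∞ := ∑' y : ℤ, ∑' a : ℤ, f a y with hΦ
  have hΦG : G w ≤ Φ := by
    unfold G
    rw [hΦ, ← (Equiv.subRight e.2).tsum_eq]
    apply ENNReal.tsum_le_tsum
    intro y
    exact r_le_rho w e y
  have hR : r w (-e.2) ≤ ∑' a : ℤ, f a 0 := by
    have := r_le_rho w e 0
    rw [zero_sub] at this
    exact this
  have hC : c w (-e.1) ≤ ∑' y : ℤ, f 0 y := by
    unfold c
    rw [← (Equiv.subRight e.2).tsum_eq]
    apply ENNReal.tsum_le_tsum
    intro y
    have := g_le_phi w e (0, y)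
    simp only [hf]
    have h2 : ((0, y) : ℤ × ℤ) - e = (-e.1, y - e.2) := by
      ext <;> simp
    rw [h2] at this
    exact_mod_cast this
  have hf0 : f 0 0 = 1 := by simp only [hf]; exact_mod_cast phi_zero w e
  have hH := sum_step f
  have hV := sum_step (fun a y => f y a)
  -- the V sum in the same order
  have hV' : ∑' y : ℤ, ∑' a : ℤ, (if y = 0 then (if a = 0 then 0 else f (a - Int.sign a) 0)
      else f a (y - Int.sign y)) = Φ + 2 * ∑' a : ℤ, f a 0 + f 0 0 := by
    rw [ENNReal.tsum_comm]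
    rw [hV]
    rw [ENNReal.tsum_comm (f := fun y a => f y a)]
  have hG : G (e :: w) = (∑' y : ℤ, ∑' a : ℤ, (if a = 0 then (if y = 0 then 0
      else f 0 (y - Int.sign y)) else f (a - Int.sign a) y)
      + ∑' y : ℤ, ∑' a : ℤ, (if y = 0 then (if a = 0 then 0 else f (a - Int.sign a) 0)
      else f a (y - Int.sign y))) / 2 + 1 := by
    have h1 : ∑' y : ℤ, ∑' a : ℤ, (if y = 0 then (if a = 0 then (1:ℝ≥0∞) else 0) else 0) = 1 := by
      have : ∀ y : ℤ, ∑' a : ℤ, (if y = 0 then (if a = 0 then (1:ℝ≥0∞) else 0) else 0)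
          = if y = 0 then 1 else 0 := by
        intro y
        split_ifs with hy
        · exact tsum_ite_eq 0 _
        · simp
      simp only [this]
      exact tsum_ite_eq 0 _
    rw [← h1, ← ENNReal.tsum_add]
    simp only [div_eq_mul_inv]
    rw [← ENNReal.tsum_mul_right, ← ENNReal.tsum_add]
    unfold G
    apply tsum_congr
    intro y
    rw [← ENNReal.tsum_add, ← ENNReal.tsum_mul_right, ← ENNReal.tsum_add]
    apply tsum_congr
    intro a
    rw [g_cons]
    by_cases ha : a = 0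
    · by_cases hy : y = 0
      · subst ha; subst hy
        simp
      · have hv : ((a, y) : ℤ × ℤ) ≠ 0 := by
          intro h; exact hy (congrArg Prod.snd h)
        rw [if_neg hv]
        have hFV : FV (a, y) = (a, y - Int.sign y) := by simp [FV, hy]
        have hFH : FH (a, y) = (0, y - Int.sign y) := by simp [FH, ha]
        rw [hFV, hFH]
        simp only [ha, hy, if_true, if_false, hf, add_zero]
        push_cast
        rw [div_eq_mul_inv]
    · have hv : ((a, y) : ℤ × ℤ) ≠ 0 := by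
        intro h; exact ha (congrArg Prod.fst h)
      rw [if_neg hv]
      have hFH : FH (a, y) = (a - Int.sign a, y) := by simp [FH, ha]
      by_cases hy : y = 0
      · have hFV : FV (a, y) = (a - Int.sign a, 0) := by simp [FV, hy]
        rw [hFV, hFH]
        simp only [ha, hy, if_true, if_false, hf, add_zero]
        push_cast
        rw [div_eq_mul_inv]
      · have hFV : FV (a, y) = (a, y - Int.sign y) := by simp [FV, hy]
        rw [hFV, hFH]
        simp only [ha, hy, if_false, hf, add_zero]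
        push_cast
        rw [div_eq_mul_inv]
  rw [hG, hH, hV', hf0]
  have h2 : (Φ + 2 * ∑' y : ℤ, f 0 y + 1 + (Φ + 2 * ∑' a : ℤ, f a 0 + 1)) / 2 + 1
      = Φ + ∑' y : ℤ, f 0 y + ∑' a : ℤ, f a 0 + 2 := by
    have h3 : Φ + 2 * ∑' y : ℤ, f 0 y + 1 + (Φ + 2 * ∑' a : ℤ, f a 0 + 1)
        = (Φ + ∑' y : ℤ, f 0 y + ∑' a : ℤ, f a 0 + 1) * 2 := by ring
    rw [h3, ENNReal.mul_div_cancel_right (by norm_num) (by norm_num)]
    rw [add_assoc _ (1:ℝ≥0∞) 1]
    norm_num
  rw [← hΦ, h2]
  gcongr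

/-! ### The comparison random walk -/

/-- `B m x` is the expected value of `(x + S_m)⁺ / 2` for the simple random walk -/
noncomputable def B : ℕ → ℤ → ℝ
  | 0, x => (max (x:ℝ) 0) / 2
  | m + 1, x => (B m (x - 1) + B m (x + 1)) / 2

lemma B_mono (m : ℕ) : ∀ x, B m x ≤ B m (x + 1) := by
  induction m with
  | zero =>
    intro x
    simp only [B]
    have : max (x:ℝ) 0 ≤ max ((x + 1 : ℤ):ℝ) 0 := by
      apply max_le_max _ le_rfl
      push_cast; linarith
    linarith
  | succ m ih =>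
    intro x
    simp only [B]
    have h1 := ih (x - 1)
    have h2 := ih (x + 1)
    have e1 : x - 1 + 1 = x + 1 - 1 := by ring
    rw [e1] at h1
    linarith

lemma B_lip (m : ℕ) : ∀ x, B m (x + 1) ≤ B m x + 1 / 2 := by
  induction m with
  | zero =>
    intro x
    simp only [B]
    have : max ((x + 1 : ℤ):ℝ) 0 ≤ max (x:ℝ) 0 + 1 := by
      apply max_le
      · push_cast
        have := le_max_left (x:ℝ) 0
        linarith
      · have := le_max_right (x:ℝ) 0
        linarith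
    linarith
  | succ m ih =>
    intro x
    simp only [B]
    have h1 := ih (x - 1)
    have h2 := ih (x + 1)
    have e1 : x - 1 + 1 = x + 1 - 1 := by ring
    rw [e1] at h1
    linarith

lemma B_monotone (m : ℕ) : Monotone (B m) := by
  apply monotone_int_of_le_succ
  exact B_mono m

lemma B_nonneg (m : ℕ) : ∀ x, 0 ≤ B m x := by
  induction m with
  | zero => intro x; simp only [B]; positivity
  | succ m ih => intro x; simp only [B]; have := ih (x-1); have := ih (x+1); linarith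

lemma B_lower (lam : ℝ) (hl : 0 < lam) (m : ℕ) : ∀ x : ℤ,
    (3 / (2 * lam) * ((x:ℝ) ^ 2 + m) - ((x:ℝ) ^ 4 + 6 * m * (x:ℝ) ^ 2 + 3 * (m:ℝ) ^ 2 - 2 * m)
      / (2 * lam ^ 3) + x) / 4 ≤ B m x := by
  induction m with
  | zero =>
    intro x
    simp only [B, Nat.cast_zero]
    have hx : |(x:ℝ)| + x = 2 * max (x:ℝ) 0 := by
      rcases le_total (x:ℝ) 0 with h | h
      · rw [abs_of_nonpos h, max_eq_right h]; ring
      · rw [abs_of_nonneg h, max_eq_left h]; ring
    have hk : 3 / (2 * lam) * (x:ℝ) ^ 2 - (x:ℝ) ^ 4 / (2 * lam ^ 3) ≤ |(x:ℝ)| := by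
      have ha : (x:ℝ)^2 = |(x:ℝ)|^2 := (sq_abs _).symm
      have hb : (x:ℝ)^4 = |(x:ℝ)|^4 := by
        rw [show (x:ℝ)^4 = ((x:ℝ)^2)^2 by ring, ha]; ring
      rw [ha, hb]
      set a := |(x:ℝ)| with hadef
      have ha0 : 0 ≤ a := abs_nonneg _
      rw [div_mul_eq_mul_div, div_sub_div _ _ (by positivity) (by positivity),
        div_le_iff₀ (by positivity)]
      have hkey : 0 ≤ a * (a - lam) ^ 2 * (a + 2 * lam) * (2 * lam) := by positivity
      nlinarith [hkey]
    have : (3 / (2 * lam) * ((x:ℝ) ^ 2 + 0) - ((x:ℝ) ^ 4 + 6 * 0 * (x:ℝ) ^ 2 + 3 * 0 ^ 2 - 2 * 0)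
      / (2 * lam ^ 3) + x) = (3 / (2 * lam) * (x:ℝ) ^ 2 - (x:ℝ) ^ 4 / (2 * lam ^ 3)) + x := by
      ring
    rw [this]
    linarith
  | succ m ih =>
    intro x
    simp only [B]
    have h1 := ih (x - 1)
    have h2 := ih (x + 1)
    push_cast at h1 h2 ⊢
    have key : (3 / (2 * lam) * ((x:ℝ) ^ 2 + (m + 1)) - ((x:ℝ) ^ 4 + 6 * (m + 1) * (x:ℝ) ^ 2
        + 3 * ((m:ℝ) + 1) ^ 2 - 2 * (m + 1)) / (2 * lam ^ 3) + x) / 4
      = ((3 / (2 * lam) * (((x:ℝ) - 1) ^ 2 + m) - (((x:ℝ) - 1) ^ 4 + 6 * m * ((x:ℝ) - 1) ^ 2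
        + 3 * (m:ℝ) ^ 2 - 2 * m) / (2 * lam ^ 3) + (x - 1)) / 4
        + (3 / (2 * lam) * (((x:ℝ) + 1) ^ 2 + m) - (((x:ℝ) + 1) ^ 4 + 6 * m * ((x:ℝ) + 1) ^ 2
        + 3 * (m:ℝ) ^ 2 - 2 * m) / (2 * lam ^ 3) + (x + 1)) / 4) / 2 := by
      ring
    rw [key]
    linarith

/-- the lower bound for the walk started at `-1` -/
lemma B_neg_one (m : ℕ) : (9 / 16 * Real.sqrt (m + 1) - 1) / 4 ≤ B m (-1) := by
  have hpos : (0:ℝ) < (m:ℝ) + 1 := by positivity
  set μ := Real.sqrt (m + 1) with hμ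
  have hμ0 : 0 < μ := Real.sqrt_pos.mpr hpos
  have hμ2 : μ ^ 2 = (m:ℝ) + 1 := Real.sq_sqrt hpos.le
  have h := B_lower (2 * μ) (by positivity) m (-1)
  refine le_trans ?_ h
  have hm : (m:ℝ) = μ ^ 2 - 1 := by linarith
  push_cast
  have e1 : 3 / (2 * (2 * μ)) * ((-1:ℝ) ^ 2 + m) = 3 / 4 * μ := by
    rw [hm]; field_simp; ring
  have e2 : ((-1:ℝ) ^ 4 + 6 * m * (-1) ^ 2 + 3 * (m:ℝ) ^ 2 - 2 * m) / (2 * (2 * μ) ^ 3)
      ≤ 3 / 16 * μ := by
    rw [div_le_iff₀ (by positivity), hm]
    nlinarith [hμ0, sq_nonneg μ]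
  linarith

/-! ### The lower bound for the row sums -/

def vert (w : List (ℤ × ℤ)) : ℤ := (w.map (fun e => |e.2|)).sum
def horiz (w : List (ℤ × ℤ)) : ℤ := (w.map (fun e => |e.1|)).sum

lemma row_lower (w : List (ℤ × ℤ)) : ∀ y : ℤ,
    ENNReal.ofReal (2 * B w.length ((w.length : ℤ) - 2 * |y| - 2 * vert w)) ≤ r w y := by
  induction w with
  | nil =>
    intro y
    have : B 0 (((([] : List (ℤ × ℤ)).length : ℕ) : ℤ) - 2 * |y| - 2 * vert []) = 0 := by
      simp only [B, List.length_nil, vert, List.map_nil, List.sum_nil]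
      have : max ((((0:ℕ):ℤ) - 2 * |y| - 2 * 0 : ℤ) : ℝ) 0 = 0 := by
        apply max_eq_right
        have : (0:ℝ) ≤ |(y:ℝ)| := abs_nonneg _
        push_cast
        linarith
      rw [this]; simp
    simp only [List.length_nil] at this ⊢
    rw [this]
    simp
  | cons e w ih =>
    intro y
    have hvert : vert (e :: w) = |e.2| + vert w := by simp [vert]
    set m := w.length with hm
    have hlen : ((e :: w).length : ℤ) = (m:ℤ) + 1 := by simp [hm]
    have hrho : ∀ z : ℤ, ENNReal.ofReal (2 * B m ((m : ℤ) - 2 * |z| - 2 * vert (e :: w)))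
        ≤ rho w e z := by
      intro z
      refine le_trans ?_ (r_le_rho w e z)
      refine le_trans ?_ (ih (z - e.2))
      apply ENNReal.ofReal_le_ofReal
      have : B m ((m : ℤ) - 2 * |z| - 2 * vert (e :: w))
          ≤ B m ((m : ℤ) - 2 * |z - e.2| - 2 * vert w) := by
        apply B_monotone
        rw [hvert]
        have := abs_sub z e.2
        linarith
      linarith
    rw [List.length_cons]
    by_cases hy : y = 0
    · subst hy
      rw [row_zero]
      have h0 := hrho 0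
      have hB : 2 * B (m + 1) (((m + 1 : ℕ) : ℤ) - 2 * |0| - 2 * vert (e :: w))
          ≤ 2 * B m ((m : ℤ) - 2 * |0| - 2 * vert (e :: w)) + 2 := by
        simp only [B]
        set X : ℤ := (m : ℤ) - 2 * |0| - 2 * vert (e :: w) with hX
        have e1 : (((m + 1 : ℕ) : ℤ) - 2 * |0| - 2 * vert (e :: w)) - 1 = X := by
          rw [hX]; push_cast; ring
        have e2 : (((m + 1 : ℕ) : ℤ) - 2 * |0| - 2 * vert (e :: w)) + 1 = X + 1 + 1 := by
          rw [hX]; push_cast; ring
        rw [e1, e2]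
        have h1 := B_lip m X
        have h2 := B_lip m (X + 1)
        linarith
      calc ENNReal.ofReal (2 * B (m + 1) (((m + 1 : ℕ) : ℤ) - 2 * |0| - 2 * vert (e :: w)))
          ≤ ENNReal.ofReal (2 * B m ((m : ℤ) - 2 * |0| - 2 * vert (e :: w)) + 2) :=
            ENNReal.ofReal_le_ofReal hB
        _ = ENNReal.ofReal (2 * B m ((m : ℤ) - 2 * |0| - 2 * vert (e :: w))) + 2 := by
            rw [ENNReal.ofReal_add (by have := B_nonneg m ((m : ℤ) - 2 * |0| - 2 * vert (e :: w));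
                                       linarith) (by norm_num)]
            norm_num
        _ ≤ rho w e 0 + 2 := by gcongr
    · refine le_trans ?_ (row_ne w e y hy)
      have h1 := hrho y
      have h2 := hrho (y - Int.sign y)
      rw [sign_step y hy] at h2
      have hB : 2 * B (m + 1) (((m + 1 : ℕ) : ℤ) - 2 * |y| - 2 * vert (e :: w))
          = (2 * B m ((m : ℤ) - 2 * |y| - 2 * vert (e :: w))
            + 2 * B m ((m : ℤ) - 2 * (|y| - 1) - 2 * vert (e :: w))) / 2 := by
        simp only [B]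
        have e1 : (((m + 1 : ℕ) : ℤ) - 2 * |y| - 2 * vert (e :: w)) - 1
            = (m : ℤ) - 2 * |y| - 2 * vert (e :: w) := by push_cast; ring
        have e2 : (((m + 1 : ℕ) : ℤ) - 2 * |y| - 2 * vert (e :: w)) + 1
            = (m : ℤ) - 2 * (|y| - 1) - 2 * vert (e :: w) := by push_cast; ring
        rw [e1, e2]
        ring
      rw [hB, ENNReal.ofReal_div_of_pos (by norm_num), ENNReal.ofReal_add
        (by have := B_nonneg m ((m : ℤ) - 2 * |y| - 2 * vert (e :: w)); linarith)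
        (by have := B_nonneg m ((m : ℤ) - 2 * (|y| - 1) - 2 * vert (e :: w)); linarith)]
      have h22 : ENNReal.ofReal 2 = 2 := by norm_num
      rw [h22]
      apply ENNReal.div_le_div_right
      exact add_le_add h1 h2

lemma col_lower (w : List (ℤ × ℤ)) (x : ℤ) :
    ENNReal.ofReal (2 * B w.length ((w.length : ℤ) - 2 * |x| - 2 * horiz w)) ≤ c w x := by
  rw [c_swap]
  have h := row_lower (w.map Prod.swap) x
  have hv : vert (w.map Prod.swap) = horiz w := by
    simp [vert, horiz, List.map_map, Function.comp_def]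
  rw [List.length_map, hv] at h
  exact h

lemma vert_horiz (w : List (ℤ × ℤ)) (hw : ∀ e ∈ w, nm e ≤ 1) : vert w + horiz w ≤ w.length := by
  induction w with
  | nil => simp [vert, horiz]
  | cons e w ih =>
    have h1 := ih (fun e' he' => hw e' (List.mem_cons_of_mem _ he'))
    have h2 := hw e List.mem_cons_self
    simp only [vert, horiz, List.map_cons, List.sum_cons, List.length_cons] at h1 ⊢
    unfold nm at h2
    push_cast
    linarith

lemma sqrt_step (t : ℕ) : ((t:ℝ) + 1) * Real.sqrt (t + 1) ≤ t * Real.sqrt t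
    + 3 / 2 * Real.sqrt (t + 1) := by
  have ht : (0:ℝ) ≤ t := by positivity
  set a := Real.sqrt t with ha
  set b := Real.sqrt (t + 1) with hb
  have ha0 : 0 ≤ a := Real.sqrt_nonneg _
  have hb0 : 0 < b := Real.sqrt_pos.mpr (by positivity)
  have ha2 : a ^ 2 = t := Real.sq_sqrt ht
  have hb2 : b ^ 2 = t + 1 := Real.sq_sqrt (by positivity)
  have hab : a ≤ b := Real.sqrt_le_sqrt (by linarith)
  have h1 : (b - a) * (b + a) = 1 := by nlinarith
  rw [← hb2, ← ha2]
  have hs : 0 < b + a := by positivity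
  have h2 : (b ^ 3 - a ^ 3) * (b + a) ≤ 3 / 2 * b * (b + a) := by
    have : (b ^ 3 - a ^ 3) * (b + a) = ((b - a) * (b + a)) * (b ^ 2 + a * b + a ^ 2) := by ring
    rw [this, h1, one_mul]
    nlinarith
  have h3 := le_of_mul_le_mul_right h2 hs
  nlinarith

/-- The captured mass of every trajectory of `t` unit moves is at least
`1 + 3 t / 2 + 3 t ^ (3/2) / 16`. -/
theorem G_lower (w : List (ℤ × ℤ)) (hw : ∀ e ∈ w, nm e ≤ 1) :
    ENNReal.ofReal (1 + 3 / 2 * w.length + 3 / 16 * (w.length * Real.sqrt w.length)) ≤ G w := by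
  induction w with
  | nil =>
    have : G [] = 1 := by
      unfold G
      have h1 : ∀ y : ℤ, ∑' a : ℤ, (g [] (a, y) : ℝ≥0∞) = if y = 0 then 1 else 0 := by
        intro y
        have : ∀ a : ℤ, (g [] (a, y) : ℝ≥0∞) = if a = 0 then (if y = 0 then 1 else 0) else 0 := by
          intro a
          rw [g_nil]
          by_cases ha : a = 0 <;> by_cases hy : y = 0 <;> simp [ha, hy]
        simp only [this]
        exact tsum_ite_eq 0 _
      simp only [h1]
      exact tsum_ite_eq 0 _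
    rw [this]
    simp
  | cons e w ih =>
    have hw' : ∀ e' ∈ w, nm e' ≤ 1 := fun e' he' => hw e' (List.mem_cons_of_mem _ he')
    have ih' := ih hw'
    have hvh := vert_horiz (e :: w) hw
    refine le_trans ?_ (G_step w e)
    set m := w.length with hm
    have hlen : ((e :: w).length : ℝ) = (m:ℝ) + 1 := by simp [hm]
    have hlen' : ((e :: w).length : ℤ) = (m:ℤ) + 1 := by simp [hm]
    rw [hlen]
    rw [hlen'] at hvh
    have hv : vert (e :: w) = |e.2| + vert w := by simp [vert]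
    have hh : horiz (e :: w) = |e.1| + horiz w := by simp [horiz]
    have hmax : ENNReal.ofReal (2 * B m (-1)) ≤ c w (-e.1) + r w (-e.2) := by
      rcases le_total (vert (e :: w)) (horiz (e :: w)) with h | h
      · refine le_trans ?_ le_add_self
        refine le_trans ?_ (row_lower w (-e.2))
        apply ENNReal.ofReal_le_ofReal
        have : B m (-1) ≤ B m ((m:ℤ) - 2 * |-e.2| - 2 * vert w) := by
          apply B_monotone
          rw [abs_neg]
          linarith
        linarith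
      · refine le_trans ?_ le_self_add
        refine le_trans ?_ (col_lower w (-e.1))
        apply ENNReal.ofReal_le_ofReal
        have : B m (-1) ≤ B m ((m:ℤ) - 2 * |-e.1| - 2 * horiz w) := by
          apply B_monotone
          rw [abs_neg]
          linarith
        linarith
    have hB := B_neg_one m
    have hBn := B_nonneg m (-1)
    have hs := sqrt_step m
    have hsn : 0 ≤ (m:ℝ) * Real.sqrt m := by positivity
    have hreal : 1 + 3 / 2 * ((m:ℝ) + 1) + 3 / 16 * (((m:ℝ) + 1) * Real.sqrt (m + 1))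
        ≤ (1 + 3 / 2 * m + 3 / 16 * (m * Real.sqrt m)) + 2 * B m (-1) + 2 := by
      nlinarith
    calc ENNReal.ofReal (1 + 3 / 2 * ((m:ℝ) + 1) + 3 / 16 * (((m:ℝ) + 1) * Real.sqrt (m + 1)))
        ≤ ENNReal.ofReal ((1 + 3 / 2 * m + 3 / 16 * (m * Real.sqrt m)) + 2 * B m (-1) + 2) :=
          ENNReal.ofReal_le_ofReal hreal
      _ = ENNReal.ofReal (1 + 3 / 2 * m + 3 / 16 * (m * Real.sqrt m))
          + ENNReal.ofReal (2 * B m (-1)) + 2 := by
          rw [ENNReal.ofReal_add (by positivity) (by norm_num),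
            ENNReal.ofReal_add (by positivity) (by positivity)]
          norm_num
      _ ≤ G w + (c w (-e.1) + r w (-e.2)) + 2 := by gcongr
      _ = G w + c w (-e.1) + r w (-e.2) + 2 := by ring

end Pool.Agent.U853.Zom
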